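import Mathlib

/-!
# Stabilisers of vectors with closed orbit have coarse midpoints (MP_fee02f_an): definitions
-/

set_option autoImplicit false

namespace RapidDecay.PP

/-- a rational representation of `GL_n` over `F`: the matrix coefficients of `ρ g` are polynomials
in the entries of `g` divided by a power of the determinant of `g` -/
def IsRational {F : Type*} [Field F] {n M : ℕ} (ρ : GL (Fin n) F →* GL (Fin M) F) : Prop :=
  ∃ (k : ℕ) (P : Fin M → Fin M → MvPolynomial (Fin n × Fin n) F), ∀ (g : GL (Fin n) F) (i j : Fin M),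
    (ρ g).1 i j * g.1.det ^ k = MvPolynomial.eval (fun p => g.1 p.1 p.2) (P i j)

/-- the diagonal torus -/
noncomputable def dgu {F : Type*} [Field F] {n : ℕ} : (Fin n → Fˣ) →* GL (Fin n) F :=
  (Units.map (Matrix.diagonalRingHom (Fin n) F).toMonoidHom).comp
    (MulEquiv.piUnits (M := fun _ : Fin n => F)).symm.toMonoidHom

theorem dgu_val {F : Type*} [Field F] {n : ℕ} (t : Fin n → Fˣ) :
    (dgu t).1 = Matrix.diagonal fun i => (t i : F) := rfl

/-- the entries of `A` and of its inverse have norm at most `K` -/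
def Bdd {F : Type*} [NormedField F] {n : ℕ} (K : ℝ) (A : GL (Fin n) F) : Prop :=
  (∀ i j, ‖A.1 i j‖ ≤ K) ∧ ∀ i j, ‖A⁻¹.1 i j‖ ≤ K

theorem Bdd.inv {F : Type*} [NormedField F] {n : ℕ} {K : ℝ} {A : GL (Fin n) F} (h : Bdd K A) :
    Bdd K A⁻¹ := ⟨h.2, by simpa using h.1⟩

theorem Bdd.mono {F : Type*} [NormedField F] {n : ℕ} {K K' : ℝ} {A : GL (Fin n) F} (h : Bdd K A)
    (hK : K ≤ K') : Bdd K' A :=
  ⟨fun i j => (h.1 i j).trans hK, fun i j => (h.2 i j).trans hK⟩

end RapidDecay.PP
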