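import Pool.Agent.Lib.MP_fee02f_an.PP.Defs

/-!
Weights of a rational representation on the diagonal torus, without any theory.

`ρ(dgu t) i j = det(t)^(-k) * eval (P i j)` is a linear combination of the characters
`t ↦ ∏ t_i ^ e_i` (a monomial which contains an off-diagonal variable evaluates to zero); collect the
coefficients of each character. Multiplicativity of `ρ ∘ dgu` and linear independence of characters
(`linearIndependent_monoidHom`), applied twice, show that the `P χ` are orthogonal projections.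
-/

set_option autoImplicit false

namespace RapidDecay.PP

variable {F : Type*} [Field F] {n M : ℕ}

/-- the character `t ↦ ∏ t_i ^ e_i` -/
noncomputable def P1_ch (e : Fin n → ℤ) : (Fin n → Fˣ) →* F where
  toFun t := ∏ i, ((t i ^ e i : Fˣ) : F)
  map_one' := by simp
  map_mul' s t := by
    simp only [Pi.mul_apply, mul_zpow, Units.val_mul]
    rw [Finset.prod_mul_distrib]

theorem P1_ch_apply (e : Fin n → ℤ) (t : Fin n → Fˣ) :
    P1_ch (F := F) e t = ∏ i, ((t i ^ e i : Fˣ) : F) := rfl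

/-- linear independence of characters, matrix form -/
theorem P1_li {G : Type*} [Monoid G] (S : Finset (G →* F)) (c : (G →* F) → Matrix (Fin M) (Fin M) F)
    (h : ∀ t : G, ∑ χ ∈ S, χ t • c χ = 0) : ∀ χ ∈ S, c χ = 0 := by
  intro χ hχ
  ext i j
  have hli := linearIndependent_monoidHom G F
  rw [linearIndependent_iff'] at hli
  have := hli S (fun χ => c χ i j) ?_ χ hχ
  · simpa using this
  · funext t
    have := congrFun (congrFun (h t) i) j
    simp only [Matrix.sum_apply, Matrix.smul_apply, Matrix.zero_apply, smul_eq_mul] at this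
    simp only [Finset.sum_apply, Pi.smul_apply, smul_eq_mul, Pi.zero_apply]
    rw [← this]
    exact Finset.sum_congr rfl fun x _ => mul_comm _ _

/-- value of a monomial at a diagonal matrix -/
theorem P1_monomial (k : ℕ) (t : Fin n → Fˣ) (m : Fin n × Fin n →₀ ℕ) :
    (m.prod fun p e => (Matrix.diagonal (fun i => (t i : F)) p.1 p.2) ^ e) =
      (∏ i, (t i : F)) ^ k *
      (if ∀ p : Fin n × Fin n, p.1 ≠ p.2 → m p = 0 then
        P1_ch (F := F) (fun i => (m (i, i) : ℤ) - k) t else 0) := by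
  split_ifs with hm
  · rw [Finsupp.prod_fintype _ _ (by simp), Fintype.prod_prod_type]
    have h1 : ∀ i : Fin n, ∏ j, (Matrix.diagonal (fun i => (t i : F)) i j) ^ m (i, j) =
        (t i : F) ^ m (i, i) := by
      intro i
      rw [Finset.prod_eq_single i]
      · simp
      · intro j _ hj
        rw [hm (i, j) (fun h => hj h.symm), pow_zero]
      · simp
    simp only [h1]
    rw [P1_ch_apply, ← Finset.prod_pow, ← Finset.prod_mul_distrib]
    refine Finset.prod_congr rfl fun i _ => ?_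
    rw [zpow_sub, zpow_natCast, zpow_natCast]
    push_cast
    field_simp
  · rw [mul_zero]
    push_neg at hm
    obtain ⟨p, hp, hmp⟩ := hm
    rw [Finsupp.prod]
    apply Finset.prod_eq_zero (i := p) (Finsupp.mem_support_iff.2 hmp)
    rw [Matrix.diagonal_apply_ne _ hp, zero_pow hmp]

theorem P1_expand (ρ : GL (Fin n) F →* GL (Fin M) F) (hρ : IsRational ρ) :
    ∃ (S : Finset ((Fin n → Fˣ) →* F)) (P : ((Fin n → Fˣ) →* F) → Matrix (Fin M) (Fin M) F),
      (∀ t, (ρ (dgu t)).1 = ∑ χ ∈ S, χ t • P χ) ∧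
      (∀ χ ∈ S, ∃ e : Fin n → ℤ, χ = P1_ch e) := by
  classical
  obtain ⟨k, P0, hP0⟩ := hρ
  let T : Finset (Fin n × Fin n →₀ ℕ) :=
    Finset.univ.biUnion fun ij : Fin M × Fin M => (P0 ij.1 ij.2).support
  let cm : (Fin n × Fin n →₀ ℕ) → ((Fin n → Fˣ) →* F) :=
    fun m => P1_ch (F := F) (fun i => (m (i, i) : ℤ) - k)
  refine ⟨T.image cm, fun χ => Matrix.of fun i j => ∑ m ∈ T with cm m = χ,
    (if ∀ p : Fin n × Fin n, p.1 ≠ p.2 → m p = 0 then (P0 i j).coeff m else 0), ?_, ?_⟩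
  · intro t
    ext i j
    have hdet : (∏ i, (t i : F)) ^ k ≠ 0 := pow_ne_zero _ (Finset.prod_ne_zero_iff.2 (by simp))
    have h1 := hP0 (dgu t) i j
    rw [dgu_val, Matrix.det_diagonal] at h1
    have h2 : (ρ (dgu t)).1 i j = ∑ m ∈ T,
        (if ∀ p : Fin n × Fin n, p.1 ≠ p.2 → m p = 0 then (P0 i j).coeff m else 0) * cm m t := by
      apply mul_right_cancel₀ hdet
      rw [h1, MvPolynomial.eval_eq', Finset.sum_mul]
      have hsub : (P0 i j).support ⊆ T := by
        intro m hm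
        exact Finset.mem_biUnion.2 ⟨(i, j), Finset.mem_univ _, hm⟩
      rw [← Finset.sum_subset hsub]
      · refine Finset.sum_congr rfl fun m _ => ?_
        have h3 := P1_monomial (F := F) k t m
        rw [Finsupp.prod_fintype _ _ (by simp)] at h3
        rw [h3]
        split_ifs with hm
        · ring
        · simp
      · intro m _ hm
        rw [MvPolynomial.notMem_support_iff] at hm
        simp [hm]
    rw [h2, Matrix.sum_apply]
    simp only [Matrix.smul_apply, Matrix.of_apply, smul_eq_mul, Finset.mul_sum]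
    rw [← Finset.sum_fiberwise_of_maps_to (g := cm) (t := T.image cm)
      (fun m hm => Finset.mem_image_of_mem _ hm)]
    refine Finset.sum_congr rfl fun χ _ => Finset.sum_congr rfl fun m hm => ?_
    rw [Finset.mem_filter] at hm
    rw [hm.2, mul_comm]
  · intro χ hχ
    obtain ⟨m, _, rfl⟩ := Finset.mem_image.1 hχ
    exact ⟨_, rfl⟩

theorem weights (ρ : GL (Fin n) F →* GL (Fin M) F) (hρ : IsRational ρ) :
    ∃ (S : Finset ((Fin n → Fˣ) →* F)) (P : ((Fin n → Fˣ) →* F) → Matrix (Fin M) (Fin M) F),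
      (∀ t, (ρ (dgu t)).1 = ∑ χ ∈ S, χ t • P χ) ∧
      (∀ χ ∈ S, ∃ e : Fin n → ℤ, ∀ t, χ t = ∏ i, ((t i ^ e i : Fˣ) : F)) ∧
      (∀ χ ∈ S, P χ * P χ = P χ) ∧ (∀ χ ∈ S, ∀ ψ ∈ S, χ ≠ ψ → P χ * P ψ = 0) ∧
      ∑ χ ∈ S, P χ = 1 := by
  classical
  obtain ⟨S, P, h1, h2⟩ := P1_expand ρ hρ
  have h3 : ∀ s : Fin n → Fˣ, ∀ χ ∈ S, χ s • P χ = ∑ ψ ∈ S, ψ s • (P χ * P ψ) := by
    intro s χ hχ
    rw [← sub_eq_zero]
    refine P1_li S (fun χ => χ s • P χ - ∑ ψ ∈ S, ψ s • (P χ * P ψ)) ?_ χ hχ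
    intro t
    have h4 : (ρ (dgu (t * s))).1 = (ρ (dgu t)).1 * (ρ (dgu s)).1 := by
      rw [map_mul, map_mul]; rfl
    rw [h1, h1, h1, Finset.sum_mul] at h4
    simp only [smul_sub, Finset.sum_sub_distrib]
    rw [sub_eq_zero]
    have h5 : ∑ χ ∈ S, χ t • χ s • P χ = ∑ χ ∈ S, χ (t * s) • P χ :=
      Finset.sum_congr rfl fun χ _ => by rw [map_mul, mul_smul]
    rw [h5, h4]
    refine Finset.sum_congr rfl fun χ _ => ?_
    rw [Finset.mul_sum, Finset.smul_sum]
    refine Finset.sum_congr rfl fun ψ _ => ?_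
    rw [Matrix.smul_mul, Matrix.mul_smul]
  have h6 : ∀ χ ∈ S, ∀ ψ ∈ S, P χ * P ψ = if ψ = χ then P χ else 0 := by
    intro χ hχ ψ hψ
    rw [eq_comm, ← sub_eq_zero]
    refine P1_li S (fun ψ => (if ψ = χ then P χ else 0) - P χ * P ψ) ?_ ψ hψ
    intro s
    simp only [smul_sub, Finset.sum_sub_distrib, smul_ite, smul_zero]
    rw [Finset.sum_ite_eq' S χ, if_pos hχ, h3 s χ hχ, sub_self]
  refine ⟨S, P, h1, ?_, ?_, ?_, ?_⟩
  · intro χ hχ
    obtain ⟨e, rfl⟩ := h2 χ hχ
    exact ⟨e, fun t => rfl⟩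
  · intro χ hχ
    rw [h6 χ hχ χ hχ, if_pos rfl]
  · intro χ hχ ψ hψ hne
    rw [h6 χ hχ ψ hψ, if_neg (Ne.symm hne)]
  · have := h1 1
    simpa using this.symm

end RapidDecay.PP
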