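import Pool.Agent.Lib.MP_fee02f_an.PP.Defs

/-!
Topology of `GL_n` over a proper normed field: compactness of bounded sets, continuity of rational
representations, and the open mapping theorem for closed orbits
(`isOpenMap_smul_of_sigmaCompact`).
-/

set_option autoImplicit false

namespace RapidDecay.PP

open Topology

variable {F : Type*} [NontriviallyNormedField F] [ProperSpace F] {n M : ℕ}

/-- matrices with entries of norm at most `K` form a compact set -/
theorem P2_isCompact_mat (K : ℝ) :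
    IsCompact {A : Matrix (Fin n) (Fin n) F | ∀ i j, ‖A i j‖ ≤ K} := by
  have h : IsCompact (Set.pi (Set.univ : Set (Fin n)) fun _ : Fin n =>
      Set.pi (Set.univ : Set (Fin n)) fun _ : Fin n => Metric.closedBall (0 : F) K) :=
    isCompact_univ_pi fun _ => isCompact_univ_pi fun _ => isCompact_closedBall _ _
  have e : (Set.pi (Set.univ : Set (Fin n)) fun _ : Fin n =>
      Set.pi (Set.univ : Set (Fin n)) fun _ : Fin n => Metric.closedBall (0 : F) K) =
      {A : Fin n → Fin n → F | ∀ i j, ‖A i j‖ ≤ K} := by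
    ext A
    constructor
    · intro hA i j
      have := hA i (Set.mem_univ i) j (Set.mem_univ j)
      rwa [Metric.mem_closedBall, dist_zero_right] at this
    · intro hA i _ j _
      rw [Metric.mem_closedBall, dist_zero_right]
      exact hA i j
  rw [e] at h
  exact h

theorem isCompact_bdd (K : ℝ) : IsCompact {A : GL (Fin n) F | Bdd K A} := by
  have h1 := P2_isCompact_mat (F := F) (n := n) K
  have h2 : IsCompact ({A : Matrix (Fin n) (Fin n) F | ∀ i j, ‖A i j‖ ≤ K} ×ˢ
      (MulOpposite.unop ⁻¹' {A : Matrix (Fin n) (Fin n) F | ∀ i j, ‖A i j‖ ≤ K})) :=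
    h1.prod (MulOpposite.opHomeomorph.symm.isClosedEmbedding.isCompact_preimage h1)
  exact (Units.isClosedEmbedding_embedProduct (α := Matrix (Fin n) (Fin n) F)).isCompact_preimage h2

omit [ProperSpace F] in
theorem P2_continuous_entry (i j : Fin n) : Continuous fun g : GL (Fin n) F => g.1 i j :=
  (Units.continuous_val (M := Matrix (Fin n) (Fin n) F)).matrix_elem i j

omit [ProperSpace F] in
theorem P2_continuous_val (ρ : GL (Fin n) F →* GL (Fin M) F) (hρ : IsRational ρ) :
    Continuous fun g => (ρ g).1 := by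
  obtain ⟨k, P, hP⟩ := hρ
  refine continuous_matrix fun i j => ?_
  have h1 : (fun g : GL (Fin n) F => (ρ g).1 i j) =
      fun g => MvPolynomial.eval (fun p => g.1 p.1 p.2) (P i j) / g.1.det ^ k := by
    funext g
    have hdet : g.1.det ^ k ≠ 0 := pow_ne_zero _ (by
      have := g.isUnit
      rw [Matrix.isUnit_iff_isUnit_det] at this
      exact this.ne_zero)
    rw [eq_div_iff hdet]
    exact hP g i j
  rw [h1]
  apply Continuous.div
  · have h2 : Continuous fun g : GL (Fin n) F => (fun p : Fin n × Fin n => g.1 p.1 p.2) :=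
      continuous_pi fun p => P2_continuous_entry p.1 p.2
    exact (MvPolynomial.continuous_eval (P i j)).comp h2
  · exact ((Units.continuous_val (M := Matrix (Fin n) (Fin n) F)).matrix_det).pow k
  · intro g
    exact pow_ne_zero _ (by
      have := g.isUnit
      rw [Matrix.isUnit_iff_isUnit_det] at this
      exact this.ne_zero)

omit [ProperSpace F] in
theorem continuous_rational (ρ : GL (Fin n) F →* GL (Fin M) F) (hρ : IsRational ρ) :
    Continuous ρ := by
  have h := P2_continuous_val ρ hρ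
  rw [Units.continuous_iff]
  refine ⟨h, ?_⟩
  have h2 : (fun g => ((ρ g)⁻¹ : GL (Fin M) F).1) = (fun g => (ρ g).1) ∘ fun g => g⁻¹ := by
    funext g
    simp only [Function.comp_apply, map_inv]
  exact h2 ▸ h.comp continuous_inv


theorem open_mapping (ρ : GL (Fin n) F →* GL (Fin M) F) (hρ : Continuous ρ) (w : Fin M → F)
    (hw : IsClosed (Set.range fun g => (ρ g).1.mulVec w)) (R : ℝ) :
    ∃ K : ℝ, ∀ g, ‖(ρ g).1.mulVec w‖ ≤ R → ∃ q, Bdd K q ∧ (ρ q).1.mulVec w = (ρ g).1.mulVec w := by
  classical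
  -- the orbit
  let O : Set (Fin M → F) := Set.range fun g => (ρ g).1.mulVec w
  let act : MulAction (GL (Fin n) F) O :=
    { smul := fun g v => ⟨(ρ g).1.mulVec v.1, by
        obtain ⟨h, hh⟩ := v.2
        refine ⟨g * h, ?_⟩
        simp only at hh ⊢
        rw [← hh, map_mul, Units.val_mul, Matrix.mulVec_mulVec]⟩
      one_smul := fun v => by
        apply Subtype.ext
        change (ρ 1).1.mulVec v.1 = v.1
        rw [map_one, Units.val_one, Matrix.one_mulVec]
      mul_smul := fun g h v => by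
        apply Subtype.ext
        change (ρ (g * h)).1.mulVec v.1 = (ρ g).1.mulVec ((ρ h).1.mulVec v.1)
        rw [map_mul, Units.val_mul, Matrix.mulVec_mulVec] }
  have smul_val : ∀ (g : GL (Fin n) F) (v : O), (g • v).1 = (ρ g).1.mulVec v.1 := fun _ _ => rfl
  have cs : ContinuousSMul (GL (Fin n) F) O := by
    constructor
    refine Continuous.subtype_mk ?_ _
    exact ((Units.continuous_val.comp (hρ.comp continuous_fst))).matrix_mulVec
      (continuous_subtype_val.comp continuous_snd)
  have tr : MulAction.IsPretransitive (GL (Fin n) F) O := by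
    constructor
    rintro ⟨_, g, rfl⟩ ⟨_, h, rfl⟩
    refine ⟨h * g⁻¹, ?_⟩
    apply Subtype.ext
    rw [smul_val]
    change (ρ (h * g⁻¹)).1.mulVec ((ρ g).1.mulVec w) = (ρ h).1.mulVec w
    rw [Matrix.mulVec_mulVec, ← Units.val_mul, ← map_mul, inv_mul_cancel_right]
  have sc : SigmaCompactSpace (GL (Fin n) F) := by
    refine ⟨⟨fun k : ℕ => {A : GL (Fin n) F | Bdd (k : ℝ) A}, fun k => isCompact_bdd _, ?_⟩⟩
    rw [Set.eq_univ_iff_forall]
    intro A
    obtain ⟨k, hk⟩ := exists_nat_ge (∑ i, ∑ j, ‖A.1 i j‖ + ∑ i, ∑ j, ‖A⁻¹.1 i j‖)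
    have hle : ∀ (B : Matrix (Fin n) (Fin n) F) (i j : Fin n), ‖B i j‖ ≤ ∑ i, ∑ j, ‖B i j‖ := by
      intro B i j
      refine (Finset.single_le_sum (f := fun j => ‖B i j‖) (fun _ _ => norm_nonneg _)
        (Finset.mem_univ j)).trans ?_
      exact Finset.single_le_sum (f := fun i => ∑ j, ‖B i j‖)
        (fun _ _ => Finset.sum_nonneg fun _ _ => norm_nonneg _) (Finset.mem_univ i)
    have h0 : ∀ B : Matrix (Fin n) (Fin n) F, 0 ≤ ∑ i, ∑ j, ‖B i j‖ := fun B =>
      Finset.sum_nonneg fun _ _ => Finset.sum_nonneg fun _ _ => norm_nonneg _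
    refine Set.mem_iUnion.mpr ⟨k, fun i j => ?_, fun i j => ?_⟩
    · have := hle A.1 i j
      have := h0 A⁻¹.1
      linarith
    · have := hle A⁻¹.1 i j
      have := h0 A.1
      linarith
  have lc : LocallyCompactSpace O := hw.locallyCompactSpace
  have bs : BaireSpace O := inferInstance
  let x0 : O := ⟨w, 1, by simp only [map_one, Units.val_one, Matrix.one_mulVec]⟩
  have hopen : IsOpenMap fun g : GL (Fin n) F => g • x0 := isOpenMap_smul_of_sigmaCompact x0
  -- open bounded sets
  let B : ℕ → Set (GL (Fin n) F) := fun k => {A | (∀ i j, ‖A.1 i j‖ < k) ∧ ∀ i j, ‖A⁻¹.1 i j‖ < k}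
  have hB : ∀ k, IsOpen (B k) := by
    intro k
    have h1 : IsOpen {A : GL (Fin n) F | ∀ i j, ‖A.1 i j‖ < k} := by
      simp only [Set.ofPred_forall]
      exact isOpen_iInter_of_finite fun i => isOpen_iInter_of_finite fun j =>
        isOpen_lt (P2_continuous_entry i j).norm continuous_const
    have h2 : IsOpen {A : GL (Fin n) F | ∀ i j, ‖A⁻¹.1 i j‖ < k} := by
      have := h1.preimage (continuous_inv (G := GL (Fin n) F))
      exact this
    exact h1.inter h2
  have hmono : ∀ k l, k ≤ l → B k ⊆ B l := by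
    intro k l hkl A hA
    have : (k : ℝ) ≤ l := by exact_mod_cast hkl
    exact ⟨fun i j => (hA.1 i j).trans_le this, fun i j => (hA.2 i j).trans_le this⟩
  have hcov : ∀ A : GL (Fin n) F, ∃ k, A ∈ B k := by
    intro A
    obtain ⟨k, hk⟩ := exists_nat_gt (∑ i, ∑ j, ‖A.1 i j‖ + ∑ i, ∑ j, ‖A⁻¹.1 i j‖)
    have hle : ∀ (B : Matrix (Fin n) (Fin n) F) (i j : Fin n), ‖B i j‖ ≤ ∑ i, ∑ j, ‖B i j‖ := by
      intro B i j
      refine (Finset.single_le_sum (f := fun j => ‖B i j‖) (fun _ _ => norm_nonneg _)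
        (Finset.mem_univ j)).trans ?_
      exact Finset.single_le_sum (f := fun i => ∑ j, ‖B i j‖)
        (fun _ _ => Finset.sum_nonneg fun _ _ => norm_nonneg _) (Finset.mem_univ i)
    have h0 : ∀ B : Matrix (Fin n) (Fin n) F, 0 ≤ ∑ i, ∑ j, ‖B i j‖ := fun B =>
      Finset.sum_nonneg fun _ _ => Finset.sum_nonneg fun _ _ => norm_nonneg _
    refine ⟨k, fun i j => ?_, fun i j => ?_⟩
    · have := hle A.1 i j
      have := h0 A⁻¹.1
      linarith
    · have := hle A⁻¹.1 i j
      have := h0 A.1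
      linarith
  -- the compact set
  have hS : IsCompact {v : O | ‖v.1‖ ≤ R} := by
    have h1 : IsCompact (Metric.closedBall (0 : Fin M → F) R) := isCompact_closedBall _ _
    have h2 := hw.isClosedEmbedding_subtypeVal.isCompact_preimage h1
    convert h2 using 1
    ext v
    simp [Metric.mem_closedBall, dist_zero_right]
  obtain ⟨k, hk⟩ := hS.elim_directed_cover (fun k : ℕ => (fun g : GL (Fin n) F => g • x0) '' B k)
    (fun k => hopen _ (hB k)) (by
      rintro ⟨_, g, rfl⟩ -
      obtain ⟨k, hk⟩ := hcov g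
      refine Set.mem_iUnion.mpr ⟨k, g, hk, ?_⟩
      apply Subtype.ext
      rfl)
    (directed_of_isDirected_le fun k l hkl => Set.image_mono (hmono k l hkl))
  refine ⟨k, fun g hg => ?_⟩
  have h3 : (⟨(ρ g).1.mulVec w, g, rfl⟩ : O) ∈ {v : O | ‖v.1‖ ≤ R} := hg
  obtain ⟨q, hq, hqe⟩ := hk h3
  refine ⟨q, ⟨fun i j => (hq.1 i j).le, fun i j => (hq.2 i j).le⟩, ?_⟩
  have := congrArg Subtype.val hqe
  exact this

end RapidDecay.PP
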