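import Pool.Agent.Lib.MP_fee02f_an.PP.P1
import Pool.Agent.Lib.MP_fee02f_an.PP.P2

/-!
The stabiliser of a vector with closed orbit is coarsely midpoint closed.

`c = A D B` fixes `w`; `w' = ρ(A)⁻¹ w` and `ρ(D)⁻¹ w' = ρ(B) ρ(c)⁻¹ w = ρ(B) w` are bounded, so
`|P χ w'|` and `|χ(D)|⁻¹ |P χ w'|` are bounded for every weight, hence so is their geometric mean, which
is comparable to `|χ(E)|⁻¹ |P χ w'|`. So `ρ(A E)⁻¹ w` is bounded, and by `open_mapping` it is `ρ(q) w`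
for a bounded `q`: `h = A E q` fixes `w`.
-/

set_option autoImplicit false

namespace RapidDecay.PP

variable {F : Type*} [NontriviallyNormedField F] [ProperSpace F] {n M : ℕ}

theorem P3_act_mul (ρ : GL (Fin n) F →* GL (Fin M) F) (g h : GL (Fin n) F) (w : Fin M → F) :
    (ρ (g * h)).1.mulVec w = (ρ g).1.mulVec ((ρ h).1.mulVec w) := by
  rw [map_mul, Units.val_mul, Matrix.mulVec_mulVec]

theorem P3_act_inv (ρ : GL (Fin n) F →* GL (Fin M) F) (c : GL (Fin n) F) (w : Fin M → F)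
    (hc : (ρ c).1.mulVec w = w) : (ρ c⁻¹).1.mulVec w = w := by
  have h := P3_act_mul ρ c⁻¹ c w
  rw [inv_mul_cancel, map_one, Units.val_one, Matrix.one_mulVec, hc] at h
  exact h.symm

theorem P3_bound (ρ : GL (Fin n) F →* GL (Fin M) F) (hρ : Continuous ρ) (w : Fin M → F) (K : ℝ) :
    ∃ C : ℝ, 0 ≤ C ∧ ∀ g : GL (Fin n) F, Bdd K g → ‖(ρ g).1.mulVec w‖ ≤ C := by
  have h1 : Continuous fun g : GL (Fin n) F => (ρ g).1.mulVec w :=
    (Units.continuous_val.comp hρ).matrix_mulVec continuous_const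
  obtain ⟨C, hC⟩ := (isCompact_bdd (F := F) (n := n) K).exists_bound_of_continuousOn
    h1.continuousOn
  exact ⟨max C 0, le_max_right _ _, fun g hg => (hC g hg).trans (le_max_left _ _)⟩

theorem P3_op_bound {ι : Type*} (S : Finset ι) (P : ι → Matrix (Fin M) (Fin M) F) :
    ∃ N : ℝ, 0 ≤ N ∧ ∀ χ ∈ S, ∀ x : Fin M → F, ‖(P χ).mulVec x‖ ≤ N * ‖x‖ := by
  refine ⟨∑ χ ∈ S, ‖LinearMap.toContinuousLinearMap (P χ).mulVecLin‖,
    Finset.sum_nonneg fun _ _ => norm_nonneg _, fun χ hχ x => ?_⟩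
  have h1 : ‖(P χ).mulVec x‖ ≤ ‖LinearMap.toContinuousLinearMap (P χ).mulVecLin‖ * ‖x‖ :=
    (LinearMap.toContinuousLinearMap (P χ).mulVecLin).le_opNorm x
  refine h1.trans (mul_le_mul_of_nonneg_right ?_ (norm_nonneg _))
  exact Finset.single_le_sum
    (f := fun χ => ‖LinearMap.toContinuousLinearMap (P χ).mulVecLin‖)
    (fun _ _ => norm_nonneg _) hχ

/-- the norm of a character -/
theorem P3_log_char (e : Fin n → ℤ) (t : Fin n → Fˣ) :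
    Real.log ‖∏ i, ((t i ^ e i : Fˣ) : F)‖ = ∑ i, (e i : ℝ) * Real.log ‖(t i : F)‖ := by
  rw [norm_prod, Real.log_prod]
  · refine Finset.sum_congr rfl fun i _ => ?_
    rw [Units.val_zpow_eq_zpow_val, norm_zpow, Real.log_zpow]
  · intro i _
    exact norm_ne_zero_iff.2 (Units.ne_zero _)

theorem P3_char_le (e : Fin n → ℤ) (D E : Fin n → Fˣ) (K : ℝ)
    (h : ∀ i, |2 * Real.log ‖(E i : F)‖ - Real.log ‖(D i : F)‖| ≤ K) :
    ‖∏ i, (((E⁻¹) i ^ e i : Fˣ) : F)‖ ^ 2 ≤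
      Real.exp (K * ∑ i, |(e i : ℝ)|) * ‖∏ i, (((D⁻¹) i ^ e i : Fˣ) : F)‖ := by
  have hne : ∀ t : Fin n → Fˣ, 0 < ‖∏ i, ((t i ^ e i : Fˣ) : F)‖ := by
    intro t
    rw [norm_pos_iff]
    exact Finset.prod_ne_zero_iff.2 fun i _ => Units.ne_zero _
  have h1 := hne E⁻¹
  have h2 := hne D⁻¹
  rw [← Real.log_le_log_iff (by positivity) (by positivity), Real.log_pow,
    Real.log_mul (Real.exp_pos _).ne' h2.ne', Real.log_exp, P3_log_char, P3_log_char]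
  have h3 : ∀ t : Fin n → Fˣ, ∀ i, Real.log ‖((t⁻¹) i : F)‖ = - Real.log ‖(t i : F)‖ := by
    intro t i
    rw [Pi.inv_apply, Units.val_inv_eq_inv_val, norm_inv, Real.log_inv]
  simp only [h3]
  push_cast
  rw [Finset.mul_sum, Finset.mul_sum, ← Finset.sum_add_distrib]
  refine Finset.sum_le_sum fun i _ => ?_
  have h4 : -((e i : ℝ) * (2 * Real.log ‖(E i : F)‖ - Real.log ‖(D i : F)‖)) ≤ K * |(e i : ℝ)| := by
    refine (neg_le_abs _).trans ?_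
    rw [abs_mul, mul_comm]
    exact mul_le_mul_of_nonneg_right (h i) (abs_nonneg _)
  nlinarith [h4]

theorem bounded_vector (ρ : GL (Fin n) F →* GL (Fin M) F) (hρ : IsRational ρ) (w : Fin M → F)
    (K : ℝ) : ∃ R : ℝ, ∀ (c A B : GL (Fin n) F) (D E : Fin n → Fˣ),
      (ρ c).1.mulVec w = w → c = A * dgu D * B → Bdd K A → Bdd K B →
      (∀ i, |2 * Real.log ‖(E i : F)‖ - Real.log ‖(D i : F)‖| ≤ K) →
      ‖(ρ (A * dgu E)⁻¹).1.mulVec w‖ ≤ R := by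
  classical
  obtain ⟨S, P, hdec, hexp, hidem, horth, hone⟩ := weights ρ hρ
  obtain ⟨C₁, hC₁, hb⟩ := P3_bound ρ (continuous_rational ρ hρ) w K
  obtain ⟨N, hN, hP⟩ := P3_op_bound S P
  choose! e he using hexp
  -- the constant for one character
  refine ⟨∑ χ ∈ S, Real.sqrt (Real.exp (K * ∑ i, |(e χ i : ℝ)|) * (N * C₁) * (N * C₁)), ?_⟩
  intro c A B D E hc hcAB hA hB hDE
  set w' := (ρ A⁻¹).1.mulVec w with hw'
  have hw'le : ‖w'‖ ≤ C₁ := hb _ hA.inv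
  -- `ρ(D)⁻¹ w' = ρ(B) w`
  have hD : (ρ (dgu D⁻¹)).1.mulVec w' = (ρ B).1.mulVec w := by
    rw [hw', ← P3_act_mul]
    have h1 : dgu D⁻¹ * A⁻¹ = B * c⁻¹ := by
      rw [hcAB, map_inv]
      group
    rw [h1, P3_act_mul, P3_act_inv ρ c w hc]
  have hE : (ρ (A * dgu E)⁻¹).1.mulVec w = (ρ (dgu E⁻¹)).1.mulVec w' := by
    rw [mul_inv_rev, ← map_inv, P3_act_mul]
  -- projections
  have hproj : ∀ χ ∈ S, ∀ t : Fin n → Fˣ,
      (P χ).mulVec ((ρ (dgu t)).1.mulVec w') = χ t • (P χ).mulVec w' := by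
    intro χ hχ t
    rw [hdec, Matrix.mulVec_mulVec, Finset.mul_sum, Finset.sum_eq_single χ]
    · rw [Matrix.mul_smul, hidem χ hχ, Matrix.smul_mulVec]
    · intro ψ hψ hne
      rw [Matrix.mul_smul, horth χ hχ ψ hψ hne.symm, smul_zero]
    · intro h; exact absurd hχ h
  rw [hE, hdec, Matrix.sum_mulVec]
  refine (norm_sum_le _ _).trans (Finset.sum_le_sum fun χ hχ => ?_)
  rw [Matrix.smul_mulVec, norm_smul]
  set x := ‖(P χ).mulVec w'‖ with hx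
  have hx0 : 0 ≤ x := norm_nonneg _
  have hx1 : x ≤ N * C₁ := (hP χ hχ w').trans (mul_le_mul_of_nonneg_left hw'le hN)
  have hx2 : ‖χ D⁻¹‖ * x ≤ N * C₁ := by
    have h1 := hproj χ hχ D⁻¹
    rw [hD] at h1
    rw [hx, ← norm_smul, ← h1]
    exact (hP χ hχ _).trans (mul_le_mul_of_nonneg_left (hb _ hB) hN)
  have hx3 : ‖χ E⁻¹‖ ^ 2 ≤ Real.exp (K * ∑ i, |(e χ i : ℝ)|) * ‖χ D⁻¹‖ := by
    have h1 := P3_char_le (e χ) D E K hDE
    rw [he χ hχ E⁻¹, he χ hχ D⁻¹]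
    exact h1
  apply Real.le_sqrt_of_sq_le
  have hexp0 := Real.exp_pos (K * ∑ i, |(e χ i : ℝ)|)
  calc (‖χ E⁻¹‖ * x) ^ 2 = ‖χ E⁻¹‖ ^ 2 * x * x := by ring
    _ ≤ Real.exp (K * ∑ i, |(e χ i : ℝ)|) * ‖χ D⁻¹‖ * x * x := by gcongr
    _ = Real.exp (K * ∑ i, |(e χ i : ℝ)|) * (‖χ D⁻¹‖ * x) * x := by ring
    _ ≤ Real.exp (K * ∑ i, |(e χ i : ℝ)|) * (N * C₁) * (N * C₁) := by gcongr

theorem coarse_midpoint (ρ : GL (Fin n) F →* GL (Fin M) F) (hρ : IsRational ρ) (w : Fin M → F)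
    (hw : IsClosed (Set.range fun g => (ρ g).1.mulVec w)) (K : ℝ) :
    ∃ K' : ℝ, ∀ (c A B : GL (Fin n) F) (D E : Fin n → Fˣ),
      (ρ c).1.mulVec w = w → c = A * dgu D * B → Bdd K A → Bdd K B →
      (∀ i, |2 * Real.log ‖(E i : F)‖ - Real.log ‖(D i : F)‖| ≤ K) →
      ∃ h : GL (Fin n) F, (ρ h).1.mulVec w = w ∧ Bdd K' (h⁻¹ * (A * dgu E)) := by
  obtain ⟨R, hR⟩ := bounded_vector ρ hρ w K
  obtain ⟨K', hK'⟩ := open_mapping ρ (continuous_rational ρ hρ) w hw R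
  refine ⟨K', fun c A B D E hc hcAB hA hB hDE => ?_⟩
  obtain ⟨q, hq, hqw⟩ := hK' _ (hR c A B D E hc hcAB hA hB hDE)
  refine ⟨A * dgu E * q, ?_, ?_⟩
  · rw [P3_act_mul, hqw, ← P3_act_mul, mul_inv_cancel, map_one, Units.val_one,
      Matrix.one_mulVec]
  · have h1 : (A * dgu E * q)⁻¹ * (A * dgu E) = q⁻¹ := by group
    rw [h1]
    exact hq.inv

end RapidDecay.PP
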