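import Pool.Agent.Lib.MP_fee02f_an.PP.P3
import Pool.Agent.Lib.MP_fee02f_an.GG.G05
import Pool.Agent.Lib.MP_fee02f_an.GG.VTop

/-!
Stabilisers of vectors with closed orbit satisfy `RDG.CMid`, first over normed fields, then over
topological fields with an absolute value (`RDG.VTop`): such a field is a proper normed field.
-/

set_option autoImplicit false

open Topology

namespace RapidDecay.PP

section Normed

variable {F : Type*} [NontriviallyNormedField F] {n M : ℕ}

theorem P4_dg (E : Fin n → Fˣ) : (dgu E : GL (Fin n) F) = RDG.dg E := Units.ext rfl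

theorem P4_bdd {v : AbsoluteValue F ℝ} (hv : ∀ x, v x = ‖x‖) {A : GL (Fin n) F} {C : ℝ}
    (h : RDG.ln v A ≤ C) : Bdd (Real.exp (2 * C)) A := by
  have h1 := RDG.se_le_ln v A
  have h2 : Real.exp (2 * RDG.ln v A) ≤ Real.exp (2 * C) := Real.exp_le_exp.2 (by linarith)
  constructor
  · intro i j
    rw [← hv]
    exact (RDG.le_se v A.1 i j).trans (h1.1.trans h2)
  · intro i j
    rw [← hv]
    exact (RDG.le_se v A⁻¹.1 i j).trans (h1.2.trans h2)

theorem P4_ln {v : AbsoluteValue F ℝ} (hv : ∀ x, v x = ‖x‖) {A : GL (Fin n) F} {K : ℝ}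
    (h : Bdd K A) : RDG.ln v A ≤ (n + 2) * Real.log (max 1 (n * (n * K))) := by
  have key : ∀ B : Matrix (Fin n) (Fin n) F, (∀ i j, ‖B i j‖ ≤ K) →
      RDG.se v B ≤ max 1 (n * (n * K)) := by
    intro B hB
    refine le_trans ?_ (le_max_right _ _)
    unfold RDG.se
    calc ∑ i, ∑ j, v (B i j) ≤ ∑ _i : Fin n, ∑ _j : Fin n, K :=
          Finset.sum_le_sum fun i _ => Finset.sum_le_sum fun j _ => by rw [hv]; exact hB i j
      _ = n * (n * K) := by simp
  exact RDG.ln_le_of_se v A _ (le_max_left _ _) (key _ h.1) (key _ h.2)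

theorem cmid_normed [ProperSpace F] {v : AbsoluteValue F ℝ} (hv : ∀ x, v x = ‖x‖) (G : Subgroup (GL (Fin n) F))
    (ρ : GL (Fin n) F →* GL (Fin M) F) (hρ : IsRational ρ) (w : Fin M → F)
    (hw : IsClosed (Set.range fun g => (ρ g).1.mulVec w))
    (hG : ∀ g, g ∈ G ↔ (ρ g).1.mulVec w = w) : RDG.CMid v G := by
  obtain ⟨C, hC, hdec⟩ := RDG.decomp (F := F) (n := n) v
  obtain ⟨x, hx⟩ := NormedField.exists_one_lt_norm F
  have hx0 : x ≠ 0 := by
    intro h
    rw [h, norm_zero] at hx
    linarith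
  set ϖ : Fˣ := Units.mk0 x hx0 with hϖ
  have hϖ1 : 1 < v (ϖ : F) := by rw [hv, hϖ]; exact hx
  set K : ℝ := max (Real.exp (2 * C)) (Real.log (v (ϖ : F))) with hK
  obtain ⟨K', hK'⟩ := coarse_midpoint ρ hρ w hw K
  refine ⟨max (max C (Real.log (v (ϖ : F)))) ((n + 2) * Real.log (max 1 (n * (n * K')))),
    fun c hc => ?_⟩
  obtain ⟨A, B, D, hcAB, hA, hB⟩ := hdec c
  obtain ⟨E, hE⟩ := RDG.half v ϖ hϖ1 D
  obtain ⟨h, hh, hb⟩ := hK' c A B D E ((hG c).1 hc) (by rw [hcAB, P4_dg])
    ((P4_bdd hv hA).mono (le_max_left _ _)) ((P4_bdd hv hB).mono (le_max_left _ _))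
    (fun i => by rw [← hv, ← hv]; exact (hE i).trans (le_max_right _ _))
  refine ⟨A, B, D, E, hcAB, hA.trans ?_, hB.trans ?_, fun i => (hE i).trans ?_, h,
    (hG h).2 hh, ?_⟩
  · exact (le_max_left _ _).trans (le_max_left _ _)
  · exact (le_max_left _ _).trans (le_max_left _ _)
  · exact (le_max_right _ _).trans (le_max_left _ _)
  · rw [P4_dg] at hb
    exact (P4_ln hv hb).trans (le_max_right _ _)

end Normed

/-- a field with an absolute value is a normed field -/
@[reducible] noncomputable def P4_nf {F : Type*} [inst : Field F] (v : AbsoluteValue F ℝ) :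
    NormedField F :=
  { v.toNormedRing, inst with
    norm_mul := v.map_mul }

/-- the topology of a field with `VTop` is the topology of the norm -/
theorem P4_top {F : Type*} [inst : Field F] (τ : TopologicalSpace F) (v : AbsoluteValue F ℝ)
    (hv : RDG.VTop F v) :
    τ = (P4_nf v).toNormedCommRing.toNormedRing.toPseudoMetricSpace.toUniformSpace.toTopologicalSpace := by
  let _ := P4_nf v
  refine TopologicalSpace.ext_nhds fun x => ?_
  refine le_antisymm ?_ ?_
  · intro U hU
    rw [Metric.mem_nhds_iff] at hU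
    obtain ⟨ε, hε, hU⟩ := hU
    refine Filter.mem_of_superset ((hv.open_ball x ε).mem_nhds ?_) ?_
    · simpa using hε
    · intro y hy
      refine hU ?_
      rw [Metric.mem_ball, dist_eq_norm]
      exact hy
  · intro U hU
    obtain ⟨ε, hε, hU⟩ := hv.basis x U hU
    rw [Metric.mem_nhds_iff]
    refine ⟨ε, hε, fun y hy => hU y ?_⟩
    rw [Metric.mem_ball, dist_eq_norm] at hy
    exact hy

theorem cmid_of_closedOrbit {F : Type*} [inst : Field F] [τ : TopologicalSpace F]
    (v : AbsoluteValue F ℝ) (hv : RDG.VTop F v) {n M : ℕ} (G : Subgroup (GL (Fin n) F))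
    (ρ : GL (Fin n) F →* GL (Fin M) F) (hρ : IsRational ρ) (w : Fin M → F)
    (hw : IsClosed (Set.range fun g => (ρ g).1.mulVec w))
    (hG : ∀ g, g ∈ G ↔ (ρ g).1.mulVec w = w) : RDG.CMid v G := by
  have hτ := P4_top τ v hv
  obtain ⟨ϖ, hϖ⟩ := hv.nontriv
  have hcomp := hv.compact
  subst hτ
  let i1 : NontriviallyNormedField F := { P4_nf v with non_trivial := ⟨(ϖ : F), hϖ⟩ }
  have : ProperSpace F := by
    refine ProperSpace.of_isCompact_closedBall_of_le 0 fun x r _ => ?_
    have h1 := hcomp r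
    have h2 : IsCompact ((fun y : F => x + y) '' {y : F | v y ≤ r}) :=
      h1.image (continuous_const.add continuous_id)
    convert h2 using 1
    ext y
    rw [Metric.mem_closedBall, dist_eq_norm]
    constructor
    · intro hy
      exact ⟨y - x, hy, by ring⟩
    · rintro ⟨z, hz, rfl⟩
      have : x + z - x = z := by ring
      rw [this]
      exact hz
  exact cmid_normed (F := F) (v := v) (fun _ => rfl) G ρ hρ w hw hG

end RapidDecay.PP
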